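import Pool.Agent.Helper81.XP.StA
import Pool.Agent.Helper81.XP.Pj

set_option autoImplicit false

/-!
MP_f90738_co, module PRA: upper bounds for tori in an approximate subgroup of `SL_2`.
-/

open Finset
open scoped Pointwise LinearAlgebra.Projectivization

namespace Pool.Agent.Helper68.XP

open Pool.Agent.Helper81.XP

section

variable {K : Type} [Field K]

/-- a matrix commuting with `a` fixes the fixed points of `a` -/
theorem fix_of_comm (a x : SL K) (ha : tr a ^ 2 ≠ 4) (hx : x * a = a * x) (ξ : Pt K)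
    (hξ : a • ξ = ξ) : x • ξ = ξ := by
  obtain ⟨v, hv, rfl⟩ : ∃ v, ∃ hv : v ≠ 0, Projectivization.mk K v hv = ξ :=
    ⟨ξ.rep, ξ.rep_nonzero, ξ.mk_rep⟩
  rw [smul_pt_fix_iff] at hξ ⊢
  obtain ⟨c, hc⟩ := hξ
  obtain ⟨w, hw⟩ : ∃ w, w = (x : Matrix (Fin 2) (Fin 2) K).mulVec v := ⟨_, rfl⟩
  have hcw : (a : Matrix (Fin 2) (Fin 2) K).mulVec w = c • w := by
    rw [hw, Matrix.mulVec_mulVec, ← Matrix.SpecialLinearGroup.coe_mul, ← hx,
      Matrix.SpecialLinearGroup.coe_mul, ← Matrix.mulVec_mulVec, hc, Matrix.mulVec_smul]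
  rw [← hw]
  have h0 := congrFun hc 0
  have h1 := congrFun hc 1
  have h2 := congrFun hcw 0
  have h3 := congrFun hcw 1
  simp only [Matrix.mulVec, dotProduct, Fin.sum_univ_two, Pi.smul_apply, smul_eq_mul] at h0 h1 h2 h3
  by_cases hD : v 0 * w 1 - v 1 * w 0 = 0
  · by_cases hv0 : v 0 = 0
    · have hv1 : v 1 ≠ 0 := by
        intro h4; apply hv; funext i; fin_cases i
        · exact hv0
        · exact h4
      have hw0 : w 0 = 0 := by
        rw [hv0, zero_mul, zero_sub, neg_eq_zero] at hD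
        exact (mul_eq_zero.1 hD).resolve_left hv1
      refine ⟨w 1 / v 1, ?_⟩
      funext i
      fin_cases i
      · simp [hv0, hw0]
      · simp [hv1]
    · refine ⟨w 0 / v 0, ?_⟩
      funext i
      fin_cases i
      · simp [hv0]
      · simp only [Fin.mk_one, Pi.smul_apply, smul_eq_mul]
        field_simp
        linear_combination hD
  · exfalso
    apply ha
    have e00 : (a : Matrix (Fin 2) (Fin 2) K) 0 0 - c = 0 := by
      apply (mul_eq_zero.1 (?_ : ((a : Matrix (Fin 2) (Fin 2) K) 0 0 - c) *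
        (v 0 * w 1 - v 1 * w 0) = 0)).resolve_right hD
      linear_combination w 1 * h0 - v 1 * h2
    have e01 : (a : Matrix (Fin 2) (Fin 2) K) 0 1 = 0 := by
      apply (mul_eq_zero.1 (?_ : ((a : Matrix (Fin 2) (Fin 2) K) 0 1) *
        (v 0 * w 1 - v 1 * w 0) = 0)).resolve_right hD
      linear_combination v 0 * h2 - w 0 * h0
    have e11 : (a : Matrix (Fin 2) (Fin 2) K) 1 1 - c = 0 := by
      apply (mul_eq_zero.1 (?_ : ((a : Matrix (Fin 2) (Fin 2) K) 1 1 - c) *
        (v 0 * w 1 - v 1 * w 0) = 0)).resolve_right hD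
      linear_combination v 0 * h3 - w 0 * h1
    have hd := det_eq a
    rw [tr_eq]
    have e00' := sub_eq_zero.1 e00
    have e11' := sub_eq_zero.1 e11
    rw [e00', e11', e01, zero_mul, sub_zero] at hd
    rw [e00', e11']
    linear_combination 4 * hd

end

/-- escape, for any decidable equality -/
theorem esc_any (hE : ST_ESC) {Γ Y : Type} [Group Γ] [MulAction Γ Y] [inst : DecidableEq Γ]
    (S : Finset Γ) (h1 : 1 ∈ S) (hinv : S⁻¹ = S)
    (hN : ∀ Φ : Finset Y, Φ.Nonempty → Φ.card ≤ 3 → ∃ g ∈ S, ∃ y ∈ Φ, g • y ∉ Φ)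
    (Φ : Finset Y) (hΦ : Φ.card = 2) : ∃ g ∈ S ^ 8, ∀ y ∈ Φ, g • y ∉ Φ := by
  have hi : inst = fun a b => Classical.propDecidable (a = b) := Subsingleton.elim _ _
  subst hi
  exact hE Γ Y S h1 hinv hN Φ hΦ

open Classical in
theorem torus_bound (hE : ST_ESC) (hT : ST_TOC) (hF : ST_FIX) (K : Type) [Field K]
    [IsAlgClosed K] (A : Finset (SL K)) (κ : ℝ)
    (hA : IsApproximateSubgroup κ (A : Set (SL K))) (hN : NI A) (a : SL K) (ha : tr a ^ 2 ≠ 4) :
    (((A ^ 2).filter (fun x => x * a = a * x)).card : ℝ) ^ 3 ≤ 512 * κ ^ 21 * (A.card : ℝ) := by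
  have hκ : 1 ≤ κ := hA.one_le
  have h1A : (1 : SL K) ∈ A := by
    have := hA.one_mem
    exact_mod_cast this
  have hinv : A⁻¹ = A := by
    have := hA.inv_eq_self
    rw [← Finset.coe_inv] at this
    exact_mod_cast this
  have hcard : (1 : ℝ) ≤ (A.card : ℝ) := by
    have : 0 < A.card := Finset.card_pos.2 ⟨1, h1A⟩
    exact_mod_cast this
  have ha1 : a ≠ 1 := by
    rintro rfl
    apply ha
    rw [tr_eq]
    simp
    norm_num
  have ha2 : a ≠ -1 := by
    rintro rfl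
    apply ha
    rw [tr_eq]
    simp
    norm_num
  obtain ⟨ξ1, ξ2, hfix, hdist⟩ := hF K a ha1 ha2
  have hne : ξ1 ≠ ξ2 := fun h => ha (hdist.1 h)
  have hf1 : a • ξ1 = ξ1 := (hfix ξ1).2 (Or.inl rfl)
  have hf2 : a • ξ2 = ξ2 := (hfix ξ2).2 (Or.inr rfl)
  obtain ⟨g, hg, hgΦ⟩ := esc_any hE (Γ := SL K) (Y := Pt K) A h1A hinv hN {ξ1, ξ2}
    (Finset.card_pair hne)
  have hg1 := hgΦ ξ1 (by simp)
  have hg2 := hgΦ ξ2 (by simp)
  simp only [Finset.mem_insert, Finset.mem_singleton, not_or] at hg1 hg2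
  have hg' : g ∈ A ^ 8 := hg
  have hTOC := hT K A ξ1 ξ2 g 2 h1A hg' hne hg1.1 hg1.2 hg2.1 hg2.2
  have hsub : (A ^ 2).filter (fun x => x * a = a * x) ⊆
      (A ^ 2).filter (fun x => x • ξ1 = ξ1 ∧ x • ξ2 = ξ2) := by
    intro x hx
    rw [Finset.mem_filter] at hx ⊢
    exact ⟨hx.1, fix_of_comm a x ha hx.2 ξ1 hf1, fix_of_comm a x ha hx.2 ξ2 hf2⟩
  have hle := Finset.card_le_card hsub
  obtain ⟨N, hNdef⟩ : ∃ N, N = ((A ^ 2).filter (fun x => x • ξ1 = ξ1 ∧ x • ξ2 = ξ2)).card :=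
    ⟨_, rfl⟩
  rw [← hNdef] at hTOC hle
  have hpow : (((A ^ (3 * 2 + 16)).card : ℕ) : ℝ) ≤ κ ^ 21 * (A.card : ℝ) := by
    have := hA.card_pow_le (n := 22)
    simpa using this
  have hκ21 : (1 : ℝ) ≤ κ ^ 21 := one_le_pow₀ hκ
  have hprod : (1 : ℝ) ≤ κ ^ 21 * (A.card : ℝ) := one_le_mul_of_one_le_of_one_le hκ21 hcard
  have hN3 : (N : ℝ) ^ 3 ≤ 512 * κ ^ 21 * (A.card : ℝ) := by
    by_cases h8 : 8 ≤ N
    · obtain ⟨M, rfl⟩ := Nat.exists_eq_add_of_le h8
      have h4 : 8 + M - 4 = M + 4 := by omega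
      rw [h4] at hTOC
      have hT' : (((8 + M) ^ 2 * (M + 4) : ℕ) : ℝ) ≤
          ((8 * (A ^ (3 * 2 + 16)).card : ℕ) : ℝ) := by exact_mod_cast hTOC
      push_cast at hT' hpow ⊢
      have hM : (0 : ℝ) ≤ (M : ℝ) := Nat.cast_nonneg M
      nlinarith [mul_nonneg (sq_nonneg (8 + (M : ℝ))) hM]
    · have h7 : N ≤ 7 := by omega
      have : (N : ℝ) ≤ 7 := by exact_mod_cast h7
      have h0 : (0 : ℝ) ≤ (N : ℝ) := Nat.cast_nonneg N
      have h343 : (N : ℝ) ^ 3 ≤ 7 ^ 3 := pow_le_pow_left₀ h0 this 3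
      nlinarith
  refine le_trans (pow_le_pow_left₀ (Nat.cast_nonneg _) (by exact_mod_cast hle) 3) hN3

/-- number of conjugates -/
theorem conj_card {Γ : Type} [Group Γ] [DecidableEq Γ] (A : Finset Γ) (hinv : A⁻¹ = A) (a : Γ) :
    A.card ≤ ((A ^ 2).filter (fun x => x * a = a * x)).card *
      (A.image (fun g => g * a * g⁻¹)).card := by
  refine Finset.card_le_mul_card_image A _ ?_
  intro b hb
  obtain ⟨g0, hg0, rfl⟩ := Finset.mem_image.1 hb
  refine Finset.card_le_card_of_injOn (fun g => g0⁻¹ * g) ?_ ?_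
  · intro g hg
    have hg' := Finset.mem_filter.1 (Finset.mem_coe.1 hg)
    obtain ⟨hgA, hgc⟩ := hg'
    apply Finset.mem_coe.2
    rw [Finset.mem_filter]
    constructor
    · rw [pow_two]
      refine Finset.mul_mem_mul ?_ hgA
      rw [← hinv]
      exact Finset.inv_mem_inv hg0
    · have h1 : g * a * g⁻¹ = g0 * a * g0⁻¹ := hgc
      show g0⁻¹ * g * a = a * (g0⁻¹ * g)
      have h2 : g * a = g0 * a * g0⁻¹ * g := by rw [← h1]; group
      rw [mul_assoc, h2]
      group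
  · intro g _ g' _ h
    exact mul_left_cancel h

theorem st_PRA (hE : ST_ESC) (hT : ST_TOC) (hF : ST_FIX) : ST_PRA := by
  classical
  refine ⟨13824, by norm_num, ?_⟩
  intro K _ _ A κ hA hN
  have hκ : 1 ≤ κ := hA.one_le
  have hκ0 : 0 ≤ κ := le_trans zero_le_one hκ
  have h1A : (1 : SL K) ∈ A := by
    have := hA.one_mem
    exact_mod_cast this
  have hinv : A⁻¹ = A := by
    have := hA.inv_eq_self
    rw [← Finset.coe_inv] at this
    exact_mod_cast this
  have hcard : (1 : ℝ) ≤ (A.card : ℝ) := by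
    have : 0 < A.card := Finset.card_pos.2 ⟨1, h1A⟩
    exact_mod_cast this
  have hcard0 : (0 : ℝ) < (A.card : ℝ) := lt_of_lt_of_le zero_lt_one hcard
  have hC : ∀ n : ℕ, n ≤ 13824 → κ ^ n ≤ κ ^ 13824 := fun n hn => pow_le_pow_right₀ hκ hn
  constructor
  · intro a ha
    refine le_trans (torus_bound hE hT hF K A κ hA hN a ha) ?_
    have h1 := hC 21 (by norm_num)
    have h2 : (0 : ℝ) ≤ κ ^ 21 := pow_nonneg hκ0 _
    apply mul_le_mul_of_nonneg_right _ hcard0.le
    push_cast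
    nlinarith
  · intro j hj
    -- the real number `B`
    obtain ⟨B, hB0, hB3⟩ : ∃ B : ℝ, 0 ≤ B ∧ B ^ 3 = 512 * κ ^ 21 * (A.card : ℝ) := by
      refine ⟨(512 * κ ^ 21 * (A.card : ℝ)) ^ ((1 : ℝ) / 3), by positivity, ?_⟩
      rw [← Real.rpow_natCast, ← Real.rpow_mul (by positivity)]
      norm_num
    have hB1 : 1 ≤ B := by
      by_contra h
      push Not at h
      have h3 : B ^ 3 < 1 := pow_lt_one₀ hB0 h (by norm_num)
      have h4 : (1 : ℝ) ≤ κ ^ 21 * (A.card : ℝ) :=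
        one_le_mul_of_one_le_of_one_le (one_le_pow₀ hκ) hcard
      rw [hB3] at h3
      nlinarith
    obtain ⟨T, hTdef⟩ : ∃ T, T = (A ^ j).image (fun x => tr x) := ⟨_, rfl⟩
    obtain ⟨T', hT'def⟩ : ∃ T', T' = T.filter (fun t => t ^ 2 ≠ 4) := ⟨_, rfl⟩
    have hTT' : T.card ≤ T'.card + 2 := by
      have hsub : T ⊆ T' ∪ {2, -2} := by
        intro t ht
        by_cases h4 : t ^ 2 = 4
        · apply Finset.mem_union_right
          have : (t - 2) * (t + 2) = 0 := by linear_combination h4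
          rcases mul_eq_zero.1 this with h | h
          · simp [sub_eq_zero.1 h]
          · simp [eq_neg_of_add_eq_zero_left h]
        · apply Finset.mem_union_left
          rw [hT'def, Finset.mem_filter]
          exact ⟨ht, h4⟩
      calc T.card ≤ (T' ∪ {2, -2}).card := Finset.card_le_card hsub
        _ ≤ T'.card + ({2, -2} : Finset K).card := Finset.card_union_le _ _
        _ ≤ T'.card + 2 := by
          have := Finset.card_le_two (a := (2 : K)) (b := -2)
          omega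
    have hch : ∀ t ∈ T', ∃ a ∈ A ^ j, tr a = t := by
      intro t ht
      rw [hT'def, Finset.mem_filter, hTdef] at ht
      obtain ⟨a, ha, hat⟩ := Finset.mem_image.1 ht.1
      exact ⟨a, ha, hat⟩
    choose! f hfA hft using hch
    have hsq : ∀ t ∈ T', t ^ 2 ≠ 4 := by
      intro t ht
      rw [hT'def, Finset.mem_filter] at ht
      exact ht.2
    have hdisj : ∀ t ∈ T', ∀ t' ∈ T', t ≠ t' →
        Disjoint (A.image (fun g => g * f t * g⁻¹)) (A.image (fun g => g * f t' * g⁻¹)) := by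
      intro t ht t' ht' hne
      rw [Finset.disjoint_left]
      intro x hx hx'
      obtain ⟨g, -, rfl⟩ := Finset.mem_image.1 hx
      obtain ⟨g', -, hg'⟩ := Finset.mem_image.1 hx'
      apply hne
      rw [← hft t ht, ← hft t' ht', ← tr_conj g, ← tr_conj g' (f t'), hg']
    have hsum : ∑ t ∈ T', (A.image (fun g => g * f t * g⁻¹)).card ≤ (A ^ (j + 2)).card := by
      rw [← Finset.card_biUnion hdisj]
      apply Finset.card_le_card
      intro x hx
      obtain ⟨t, ht, hxt⟩ := Finset.mem_biUnion.1 hx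
      obtain ⟨g, hg, rfl⟩ := Finset.mem_image.1 hxt
      have h1 : g⁻¹ ∈ A := by
        rw [← hinv]
        exact Finset.inv_mem_inv hg
      rw [pow_succ, pow_succ']
      exact Finset.mul_mem_mul (Finset.mul_mem_mul hg (hfA t ht)) h1
    have hpow : ((A ^ (j + 2)).card : ℝ) ≤ κ ^ 41 * (A.card : ℝ) := by
      refine le_trans (hA.card_pow_le (n := j + 2)) ?_
      apply mul_le_mul_of_nonneg_right _ hcard0.le
      exact pow_le_pow_right₀ hκ (by omega)
    have hmain : (T'.card : ℝ) * (A.card : ℝ) ≤ B * (κ ^ 41 * (A.card : ℝ)) := by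
      have h1 : ∀ t ∈ T', (A.card : ℝ) ≤ B * ((A.image (fun g => g * f t * g⁻¹)).card : ℝ) := by
        intro t ht
        have h2 := conj_card A hinv (f t)
        have h3 : (((A ^ 2).filter (fun x => x * f t = f t * x)).card : ℝ) ≤ B := by
          have h4 := torus_bound hE hT hF K A κ hA hN (f t) (by rw [hft t ht]; exact hsq t ht)
          rw [← hB3] at h4
          exact le_of_pow_le_pow_left₀ (by norm_num) hB0 h4
        have h5 : (A.card : ℝ) ≤ (((A ^ 2).filter (fun x => x * f t = f t * x)).card : ℝ) *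
            ((A.image (fun g => g * f t * g⁻¹)).card : ℝ) := by exact_mod_cast h2
        exact le_trans h5 (mul_le_mul_of_nonneg_right h3 (Nat.cast_nonneg _))
      have h2 : ∑ t ∈ T', (A.card : ℝ) ≤
          ∑ t ∈ T', B * ((A.image (fun g => g * f t * g⁻¹)).card : ℝ) := Finset.sum_le_sum h1
      rw [Finset.sum_const, nsmul_eq_mul, ← Finset.mul_sum] at h2
      refine le_trans h2 ?_
      apply mul_le_mul_of_nonneg_left _ hB0
      refine le_trans ?_ hpow
      exact_mod_cast hsum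
    have hT'B : (T'.card : ℝ) ≤ B * κ ^ 41 := by
      have : (T'.card : ℝ) * (A.card : ℝ) ≤ (B * κ ^ 41) * (A.card : ℝ) := by
        rw [mul_assoc]; exact hmain
      exact le_of_mul_le_mul_right this hcard0
    have hTB : (T.card : ℝ) ≤ 3 * (B * κ ^ 41) := by
      have h1 : (T.card : ℝ) ≤ (T'.card : ℝ) + 2 := by exact_mod_cast hTT'
      have h2 : (1 : ℝ) ≤ B * κ ^ 41 := one_le_mul_of_one_le_of_one_le hB1 (one_le_pow₀ hκ)
      linarith
    rw [← hTdef]
    calc (T.card : ℝ) ^ 3 ≤ (3 * (B * κ ^ 41)) ^ 3 := pow_le_pow_left₀ (Nat.cast_nonneg _) hTB 3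
      _ = 27 * (B ^ 3) * κ ^ 123 := by ring
      _ = 13824 * κ ^ 144 * (A.card : ℝ) := by rw [hB3]; ring
      _ ≤ ((13824 : ℕ) : ℝ) * κ ^ 13824 * (A.card : ℝ) := by
        push_cast
        apply mul_le_mul_of_nonneg_right _ hcard0.le
        exact mul_le_mul_of_nonneg_left (hC 144 (by norm_num)) (by norm_num)

end Pool.Agent.Helper68.XP
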